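import Pool.Agent.R779.BC.ArtThm

/-!
# Artin groups, their extensions, and surjectivity of the Stolz map

If the real Baum–Connes assembly map of `Γ` is onto (for instance, if `Γ` satisfies the Baum–Connes
conjecture with coefficients) then `θ` is onto for `Γ`. `B` is a class of groups with the inheritance
properties of the Baum–Connes conjecture with coefficients (`InheritBC B`).

`W B` is the class of the groups `G` such that every countable group with a subgroup of finite index
which embeds in a finite power of `G` is in `B` (equivalently: finite wreath products over `G`). It is
closed under subgroups, overgroups of finite index, directed unions and arbitrary extensions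
(`MP_ba76ae_gt.ElementaryExtensions`). It is assumed that `W B` contains the free groups and the Coxeter
groups of finite rank (these are a-T-menable).

1. Let `M` be a Coxeter matrix over a set `V` of any cardinality (with any labels, also odd ones). The
   Artin group of `M` is in `W B` if and only if its parabolic subgroups of finite rank without label
   infinity are.
2. In this case every extension of a group in `W B` by the Artin group is in `W B`, and every countable
   extension of a group in `B` by the Artin group is in `B`.

Outline of the proof. If `M x y = ∞` then the Artin group `A` of finite rank is the amalgamated product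
of `A_{V∖x}` and `A_{V∖y}` over `A_T`, `T = V∖{x,y}`. There is a homomorphism of `A` to the extension of
the Coxeter group by the finite-valued functions on the cosets of its parabolic subgroup `W_T` with
values in `A_T`, which is injective on `A_T` (helper665, `MP_9d1ffa_al.ArtinGroups`). Finite-valued
functions with values in a group of `W B` are in `W B`, and the kernel of the homomorphism is in `W B` by
`MP_ba76ae_gt.KernelsOfSplittings`.
-/

set_option autoImplicit false

namespace Pool.Agent.Results.MP_b169d2_gt.ArtinGroups

open Pool.Agent.Helper741
open Pool.Agent.R941.BC (Inherit W)
open Pool.Agent.R779.BC (par InfFree)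

/-- the inheritance properties of the Baum–Connes conjecture with coefficients for countable groups:
subgroups, directed unions, extensions -/
structure InheritBC (B : ∀ (G : Type) [Group G], Prop) : Prop where
  sub : ∀ (G H : Type) [Group G] [Group H] [Countable H] (f : G →* H), Function.Injective f →
    B H → B G
  loc : ∀ (G : Type) [Group G] [Countable G], (∀ L : Subgroup G, L.FG → B L) → B G
  ext : ∀ (G : Type) [Group G] [Countable G] (N : Subgroup G) [N.Normal], B (G ⧸ N) →
    (∀ H : Subgroup G, N ≤ H → N.relIndex H ≠ 0 → B H) → B G

theorem result {B : ∀ (G : Type) [Group G], Prop} (h : InheritBC B)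
    (hF : W B (FreeGroup ℕ))
    (hW : ∀ (V : Type) [Finite V] (M : CoxeterMatrix V), W B M.Group) (V : Type)
    (M : CoxeterMatrix V) :
    (W B (Artin M) ↔ ∀ T : Finset V, InfFree M T → W B ↥(par M (T : Set V))) ∧
    ((∀ T : Finset V, InfFree M T → W B ↥(par M (T : Set V))) →
      ∀ (G : Type) [Group G] (N : Subgroup G) [N.Normal], Nonempty (Artin M ≃* N) →
        (W B (G ⧸ N) → W B G) ∧ (Countable G → B (G ⧸ N) → B G)) := by
  have hI : Inherit B B := ⟨h.sub, h.loc, h.ext, h.ext⟩
  obtain ⟨h1, h2⟩ := Pool.Agent.R779.BC.art_main hI hF hW M
  exact ⟨h1, fun h3 G _ N _ he => ⟨(h2 h3 G N he).1, fun hc => ((h2 h3 G N he).2 hc).1⟩⟩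

end Pool.Agent.Results.MP_b169d2_gt.ArtinGroups
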