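import Pool.Agent.R779.BC.Rh

/-!
# Residual hierarchies and surjectivity of the Stolz map

If the real Baum–Connes assembly map of `Γ` is onto (for instance, if `Γ` satisfies the Baum–Connes
conjecture with coefficients) then `θ` is onto for `Γ`. `B` is a class of groups with the inheritance
properties of the Baum–Connes conjecture with coefficients (`InheritBC B`); `W B` contains the free
groups.

`W B` is the class of the groups `G` such that every countable group with a subgroup of finite index
which embeds in a finite power of `G` is in `B` (equivalently: finite wreath products over `G`). It is
closed under subgroups, overgroups of finite index, directed unions and arbitrary extensions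
(`MP_ba76ae_gt.ElementaryExtensions`); `B` is closed under actions on trees (Oyono-Oyono, Tu), but this
is not known for `W B`.

Let `N` have a hierarchy that ends in groups in `W B`: it is built from groups in `W B` by finitely many
steps which are amalgamated products and HNN extensions whose edge groups satisfy the descending chain
condition for isolated normal subgroups (normal subgroups with torsion-free quotient), or directed
unions. If `N` is residually a torsion-free member of `W B` then `N` is in `W B`. So, if `N` is normal in
the countable group `G` and `G / N` is in `B`, then `G` is in `B`.

The chain condition holds for the groups of finite Hirsch length (polycyclic groups, `ℚⁿ`, solvable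
groups of finite rank), for simple groups and for groups all of whose nontrivial normal subgroups have
finite index.

Outline of the proof. The kernels of homomorphisms to torsion-free groups in `W B` meet an edge group in
isolated normal subgroups, so one homomorphism to a torsion-free group in `W B` is injective on the edge
group; its kernel is in `W B` by `MP_ba76ae_gt.KernelsOfSplittings`. The chain condition for groups of
finite Hirsch length is proved in `MP_63c928_gt.ResidualHierarchies` (helper632), the theorem for
Farrell–Jones classes.
-/

set_option autoImplicit false

namespace Pool.Agent.Results.MP_b169d2_gt.ResidualHierarchies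

open Pool.Agent.R632.RH (FiniteHirsch ResTF)
open Pool.Agent.R941.BC (Inherit W)
open Pool.Agent.R779.BC (DCC Hier)

/-- the inheritance properties of the Baum–Connes conjecture with coefficients for countable groups:
subgroups, directed unions, extensions -/
structure InheritBC (B : ∀ (G : Type) [Group G], Prop) : Prop where
  sub : ∀ (G H : Type) [Group G] [Group H] [Countable H] (f : G →* H), Function.Injective f →
    B H → B G
  loc : ∀ (G : Type) [Group G] [Countable G], (∀ L : Subgroup G, L.FG → B L) → B G
  ext : ∀ (G : Type) [Group G] [Countable G] (N : Subgroup G) [N.Normal], B (G ⧸ N) →
    (∀ H : Subgroup G, N ≤ H → N.relIndex H ≠ 0 → B H) → B G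

theorem result {B : ∀ (G : Type) [Group G], Prop} (h : InheritBC B)
    (hF : W B (FreeGroup ℕ)) :
    (∀ (K : Type) [Group K], FiniteHirsch K → DCC K) ∧
    ∀ (N : Type) [Group N], Hier (W B) N → ResTF (W B) N → W B N ∧
      ∀ (G : Type) [Group G] (f : N →* G), Function.Injective f → ∀ [f.range.Normal], Countable G →
        B (G ⧸ f.range) → B G := by
  have hI : Inherit B B := ⟨h.sub, h.loc, h.ext, h.ext⟩
  obtain ⟨h1, h2⟩ := Pool.Agent.R779.BC.hier_main hI hF
  exact ⟨h1, fun N _ hN hR => ⟨(h2 N hN hR).1,
    fun G _ f hf _ hc => ((h2 N hN hR).2 G f hf hc).1⟩⟩

end Pool.Agent.Results.MP_b169d2_gt.ResidualHierarchies
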